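import Mathlib

set_option autoImplicit false

/-! The integers that are not divisible by the `k`-th power of a small prime. -/

namespace Pool.Agent.helper391_SF

open Finset Filter

theorem count_period (k : ℕ) (P₀ : Finset ℕ) (hP : ∀ p ∈ P₀, p.Prime) :
    ((range (∏ p ∈ P₀, p ^ k)).filter (fun x => ∀ p ∈ P₀, ¬ p ^ k ∣ x)).card ≤
      ∏ p ∈ P₀, (p ^ k - 1) := by
  classical
  induction P₀ using Finset.induction_on with
  | empty => simp
  | insert q S hq ih =>
    have hS : ∀ p ∈ S, p.Prime := fun p hp => hP p (mem_insert_of_mem hp)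
    have hqp : q.Prime := hP q (mem_insert_self _ _)
    have ih' := ih hS
    rw [prod_insert hq, prod_insert hq]
    set W := ∏ p ∈ S, p ^ k with hW
    have hcop : Nat.Coprime (q ^ k) W := by
      rw [hW]
      apply Nat.Coprime.prod_right
      intro p hp
      apply Nat.Coprime.pow
      rw [Nat.coprime_primes hqp (hS p hp)]
      rintro rfl
      exact hq hp
    have hW0 : 0 < W := Finset.prod_pos (fun p hp => pow_pos (hS p hp).pos k)
    have hq0 : 0 < q ^ k := pow_pos hqp.pos k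
    have h1 : ((range (q ^ k * W)).filter (fun x => ∀ p ∈ insert q S, ¬ p ^ k ∣ x)).card ≤
        ((Ico 1 (q ^ k)) ×ˢ (range W).filter (fun x => ∀ p ∈ S, ¬ p ^ k ∣ x)).card := by
      apply Finset.card_le_card_of_injOn (fun x => (x % q ^ k, x % W))
      · intro x hx
        rw [mem_coe, mem_filter] at hx
        rw [mem_coe, mem_product, mem_Ico, mem_filter, mem_range]
        refine ⟨⟨?_, Nat.mod_lt _ hq0⟩, Nat.mod_lt _ hW0, ?_⟩
        · by_contra hcon
          have h2 : x % q ^ k = 0 := Nat.eq_zero_of_not_pos hcon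
          exact hx.2 q (mem_insert_self _ _) (Nat.dvd_of_mod_eq_zero h2)
        · intro p hp hpx
          have h2 : p ^ k ∣ W := Finset.dvd_prod_of_mem (fun p => p ^ k) hp
          have h3 : p ^ k ∣ x := by
            rw [← Nat.div_add_mod x W]
            exact (h2.mul_right _).add hpx
          exact hx.2 p (mem_insert_of_mem hp) h3
      · intro x hx y hy hxy
        rw [mem_coe, mem_filter, mem_range] at hx hy
        have h2 : x % q ^ k = y % q ^ k := (Prod.ext_iff.1 hxy).1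
        have h3 : x % W = y % W := (Prod.ext_iff.1 hxy).2
        have h4 : x ≡ y [MOD q ^ k * W] :=
          (Nat.modEq_and_modEq_iff_modEq_mul hcop).1 ⟨h2, h3⟩
        exact Nat.ModEq.eq_of_lt_of_lt h4 hx.1 hy.1
    rw [card_product, Nat.card_Ico] at h1
    exact h1.trans (Nat.mul_le_mul_left _ ih')

theorem count_h (k : ℕ) (P₀ : Finset ℕ) (hP : ∀ p ∈ P₀, p.Prime) (h : ℕ) :
    (((Icc 1 h).filter (fun i => ∀ p ∈ P₀, ¬ p ^ k ∣ i)).card : ℝ) ≤
      h * ∏ p ∈ P₀, (1 - 1 / (p : ℝ) ^ k) + ∏ p ∈ P₀, (p : ℝ) ^ k := by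
  classical
  set W := ∏ p ∈ P₀, p ^ k with hW
  have hW0 : 0 < W := Finset.prod_pos (fun p hp => pow_pos (hP p hp).pos k)
  have hWR : (0 : ℝ) < W := by exact_mod_cast hW0
  set c := ((range W).filter (fun x => ∀ p ∈ P₀, ¬ p ^ k ∣ x)).card with hc
  have h1 : ((Icc 1 h).filter (fun i => ∀ p ∈ P₀, ¬ p ^ k ∣ i)).card ≤
      ((range (h / W + 1)) ×ˢ (range W).filter (fun x => ∀ p ∈ P₀, ¬ p ^ k ∣ x)).card := by
    apply Finset.card_le_card_of_injOn (fun x => (x / W, x % W))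
    · intro x hx
      rw [mem_coe, mem_filter, mem_Icc] at hx
      rw [mem_coe, mem_product, mem_range, mem_filter, mem_range]
      refine ⟨?_, Nat.mod_lt _ hW0, ?_⟩
      · show x / W < h / W + 1
        have : x / W ≤ h / W := Nat.div_le_div_right hx.1.2
        omega
      · intro p hp hpx
        have h2 : p ^ k ∣ W := Finset.dvd_prod_of_mem (fun p => p ^ k) hp
        have h3 : p ^ k ∣ x := by
          rw [← Nat.div_add_mod x W]
          exact (h2.mul_right _).add hpx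
        exact hx.2 p hp h3
    · intro x _ y _ hxy
      have h2 : x / W = y / W := (Prod.ext_iff.1 hxy).1
      have h3 : x % W = y % W := (Prod.ext_iff.1 hxy).2
      rw [← Nat.div_add_mod x W, ← Nat.div_add_mod y W, h2, h3]
  rw [card_product, card_range, ← hc] at h1
  have h2 : c ≤ ∏ p ∈ P₀, (p ^ k - 1) := count_period k P₀ hP
  have h3 : (((∏ p ∈ P₀, (p ^ k - 1) : ℕ)) : ℝ) = W * ∏ p ∈ P₀, (1 - 1 / (p : ℝ) ^ k) := by
    rw [hW]
    push_cast
    rw [← Finset.prod_mul_distrib]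
    apply Finset.prod_congr rfl
    intro p hp
    have hp0 : (0 : ℝ) < (p : ℝ) ^ k := by
      have : (0 : ℝ) < p := by exact_mod_cast (hP p hp).pos
      positivity
    rw [Nat.cast_sub (Nat.one_le_pow _ _ (hP p hp).pos)]
    push_cast
    field_simp
  have h4 : ((∏ p ∈ P₀, (p ^ k - 1) : ℕ) : ℝ) ≤ W := by
    have : ∏ p ∈ P₀, (p ^ k - 1) ≤ W := Finset.prod_le_prod' (fun p _ => Nat.sub_le _ _)
    exact_mod_cast this
  have h5 : (((Icc 1 h).filter (fun i => ∀ p ∈ P₀, ¬ p ^ k ∣ i)).card : ℝ) ≤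
      (((h / W : ℕ) : ℝ) + 1) * c := by exact_mod_cast h1
  have h6 : (c : ℝ) ≤ ((∏ p ∈ P₀, (p ^ k - 1) : ℕ) : ℝ) := by exact_mod_cast h2
  have h7 : ((h / W : ℕ) : ℝ) ≤ h / W := Nat.cast_div_le
  have hWR' : (∏ p ∈ P₀, (p : ℝ) ^ k) = W := by rw [hW]; push_cast; rfl
  rw [hWR']
  set V : ℝ := ((∏ p ∈ P₀, (p ^ k - 1) : ℕ) : ℝ) with hV
  have hV0 : 0 ≤ V := Nat.cast_nonneg _
  calc (((Icc 1 h).filter (fun i => ∀ p ∈ P₀, ¬ p ^ k ∣ i)).card : ℝ)
      ≤ (((h / W : ℕ) : ℝ) + 1) * c := h5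
    _ ≤ ((h : ℝ) / W + 1) * V := by gcongr
    _ = h * (V / W) + V := by field_simp
    _ ≤ h * ∏ p ∈ P₀, (1 - 1 / (p : ℝ) ^ k) + W := by
        rw [h3, mul_div_cancel_left₀ _ hWR.ne']
        have : V ≤ W := h4
        rw [h3] at this
        linarith

theorem zeta_lim (k : ℕ) (hk : 2 ≤ k) : 1 ≤ (riemannZeta k).re ∧
    Tendsto (fun n : ℕ => ∏ p ∈ Nat.primesBelow n, (1 - 1 / (p : ℝ) ^ k)) atTop
      (nhds (1 / (riemannZeta k).re)) := by
  have hs : 1 < ((k : ℕ) : ℂ).re := by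
    rw [Complex.natCast_re]
    exact_mod_cast (by omega : 1 < k)
  have h1 := riemannZeta_eulerProduct hs
  have h2 := (Complex.continuous_re.tendsto _).comp h1
  have h3 : ∀ n : ℕ, (∏ p ∈ Nat.primesBelow n, (1 - (p : ℂ) ^ (-(k : ℂ)))⁻¹).re =
      ∏ p ∈ Nat.primesBelow n, (1 - 1 / (p : ℝ) ^ k)⁻¹ := by
    intro n
    have h4 : ∏ p ∈ Nat.primesBelow n, (1 - (p : ℂ) ^ (-(k : ℂ)))⁻¹ =
        ((∏ p ∈ Nat.primesBelow n, (1 - 1 / (p : ℝ) ^ k)⁻¹ : ℝ) : ℂ) := by
      push_cast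
      apply Finset.prod_congr rfl
      intro p _
      rw [Complex.cpow_neg, Complex.cpow_natCast, one_div]
    rw [h4, Complex.ofReal_re]
  have h5 : Tendsto (fun n : ℕ => ∏ p ∈ Nat.primesBelow n, (1 - 1 / (p : ℝ) ^ k)⁻¹) atTop
      (nhds (riemannZeta k).re) := by
    refine h2.congr ?_
    intro n
    exact h3 n
  have h6 : ∀ n : ℕ, 1 ≤ ∏ p ∈ Nat.primesBelow n, (1 - 1 / (p : ℝ) ^ k)⁻¹ := by
    intro n
    have h61 : ∀ p ∈ Nat.primesBelow n, (1 : ℝ) ≤ (1 - 1 / (p : ℝ) ^ k)⁻¹ := by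
      intro p hp
      have hpp := Nat.prime_of_mem_primesBelow hp
      have hp2 : (2 : ℝ) ≤ p := by exact_mod_cast hpp.two_le
      have hpk : (2 : ℝ) ≤ (p : ℝ) ^ k := by
        calc (2 : ℝ) ≤ p := hp2
          _ = (p : ℝ) ^ 1 := (pow_one _).symm
          _ ≤ (p : ℝ) ^ k := pow_le_pow_right₀ (by linarith) (by omega)
      have h7 : 1 / (p : ℝ) ^ k ≤ 1 / 2 := one_div_le_one_div_of_le (by norm_num) hpk
      have h8 : 0 < 1 / (p : ℝ) ^ k := by positivity
      rw [one_le_inv₀ (by linarith)]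
      linarith
    calc (1 : ℝ) = ∏ p ∈ Nat.primesBelow n, (1 : ℝ) := by simp
      _ ≤ _ := Finset.prod_le_prod (fun _ _ => by norm_num) h61
  have h7 : 1 ≤ (riemannZeta k).re := ge_of_tendsto' h5 h6
  refine ⟨h7, ?_⟩
  have h8 := h5.inv₀ (by linarith)
  rw [one_div]
  refine h8.congr ?_
  intro n
  rw [← Finset.prod_inv_distrib]
  apply Finset.prod_congr rfl
  intro p _
  rw [inv_inv]

end Pool.Agent.helper391_SF
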