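import Mathlib
import Pool.Agent.Results.MP_3bc45c_nt.RecordGapsAtPrescribedPlaces
import Pool.Agent.helper391_DG.Ana
import Pool.Agent.helper391_PT.Main
import Pool.Agent.helper391_OM.Prod
import Pool.Agent.helper391_SF.Count

set_option autoImplicit false

/-! The largest known gaps between `k`-free integers inside record gaps between primes. -/

namespace Pool.Agent.helper391_SF

open Finset Filter
open Pool.Agent.helper391_DG Pool.Agent.helper391_PT Pool.Agent.helper391_OM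

/-- the number of the prime factors in `exists_d` -/
theorem size (α β : ℝ) (hβ : 0 < β) (hαβ : β < α) (hα : α ≤ 1) : ∀ᶠ L : ℝ in atTop,
    β * L / Real.log L ≤ (α * L - Real.log (8 * (α * L))) / Real.log (8 * (α * L)) := by
  have hα0 : 0 < α := by linarith
  set a : ℝ := Real.log 8 with ha
  have ha0 : 0 < a := Real.log_pos (by norm_num)
  set γ : ℝ := (α - β) / 2 with hγ
  have hγ0 : 0 < γ := by rw [hγ]; linarith
  have h1 := Real.isLittleO_log_id_atTop.def (show (0 : ℝ) < γ / 2 by positivity)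
  filter_upwards [h1, Real.tendsto_log_atTop.eventually_ge_atTop (β * a / γ + 1),
    eventually_ge_atTop (2 * a / γ), eventually_ge_atTop (1 / α), eventually_ge_atTop 1]
    with L b1 b2 b3 b4 b5
  set l := Real.log L with hl
  have hL0 : 0 < L := by linarith
  have hfr : 0 ≤ β * a / γ := by positivity
  have hl0 : 0 < l := by linarith
  rw [Real.norm_eq_abs, abs_of_pos hl0, id, Real.norm_eq_abs, abs_of_pos hL0] at b1
  rw [div_le_iff₀ hγ0] at b3
  rw [div_le_iff₀ hα0] at b4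
  have hαL : 1 ≤ α * L := by linarith
  set w := Real.log (8 * (α * L)) with hw
  have hw0 : 0 < w := Real.log_pos (by linarith)
  have hwl : w ≤ l + a := by
    rw [hw, Real.log_mul (by norm_num) (by linarith)]
    have : Real.log (α * L) ≤ l := Real.log_le_log (by linarith) (by
      calc α * L ≤ 1 * L := mul_le_mul_of_nonneg_right hα hL0.le
        _ = L := one_mul L)
    linarith
  rw [div_le_div_iff₀ hl0 hw0]
  have e1 : β * a ≤ γ * l := by
    have h2 : β * a / γ ≤ l := by linarith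
    rw [div_le_iff₀ hγ0] at h2
    linarith
  have e2 : β * L * w ≤ β * L * (l + a) := mul_le_mul_of_nonneg_left hwl (by positivity)
  have e3 : β * L * (l + a) = β * L * l + L * (β * a) := by ring
  have e4 : L * (β * a) ≤ L * (γ * l) := mul_le_mul_of_nonneg_left e1 hL0.le
  have e5 : w ≤ γ * L := by linarith
  have e6 : w * l ≤ γ * L * l := mul_le_mul_of_nonneg_right e5 hl0.le
  have e7 : (α * L - w) * l = α * L * l - w * l := by ring
  have e8 : α * L * l = β * L * l + 2 * (γ * L * l) := by rw [hγ]; ring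
  have e9 : L * (γ * l) = γ * L * l := by ring
  rw [e7]
  linarith

/-- the congruences -/
theorem crt (k h : ℕ) (P₀ P : Finset ℕ) (hP₀ : ∀ p ∈ P₀, p.Prime) (hP : ∀ p ∈ P, p.Prime)
    (hdis : ∀ p ∈ P, p ∉ P₀)
    (hcard : ((Icc 1 h).filter (fun i => ∀ p ∈ P₀, ¬ p ^ k ∣ i)).card ≤ P.card) :
    ∃ d a : ℕ, d ∣ (∏ p ∈ P₀, p ^ k) * (∏ p ∈ P, p ^ k) ∧
      ∀ n : ℕ, n ≡ a [MOD d] → ∀ i : ℕ, 1 ≤ i → i ≤ h → ∃ p : ℕ, p.Prime ∧ p ^ k ∣ n + i := by
  classical
  set U := (Icc 1 h).filter (fun i => ∀ p ∈ P₀, ¬ p ^ k ∣ i) with hU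
  obtain ⟨q⟩ : Nonempty ({x // x ∈ U} ↪ {x // x ∈ P}) := by
    apply Function.Embedding.nonempty_of_card_le
    simpa using hcard
  set s : {x // x ∈ U} → ℕ := fun i => ((q i : ℕ)) ^ k with hs
  have hq : ∀ i, ((q i : ℕ)).Prime := fun i => hP _ (q i).2
  have hcop : Set.Pairwise (↑(Finset.univ : Finset {x // x ∈ U}))
      (Function.onFun Nat.Coprime s) := by
    intro i _ j _ hij
    show Nat.Coprime (s i) (s j)
    apply Nat.Coprime.pow
    rw [Nat.coprime_primes (hq i) (hq j)]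
    intro h1
    exact hij (q.injective (Subtype.ext h1))
  obtain ⟨a₀, ha₀⟩ := Nat.chineseRemainderOfFinset (fun i : {x // x ∈ U} => s i * i - i) s
    Finset.univ (fun i _ => pow_ne_zero _ (hq i).ne_zero) hcop
  set W := ∏ p ∈ P₀, p ^ k with hW
  set E := ∏ i, s i with hE
  have hWE : Nat.Coprime W E := by
    rw [hW, hE]
    apply Nat.Coprime.prod_left
    intro p hp
    apply Nat.Coprime.prod_right
    intro i _
    apply Nat.Coprime.pow
    rw [Nat.coprime_primes (hP₀ p hp) (hq i)]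
    intro h1
    exact hdis _ (q i).2 (h1 ▸ hp)
  obtain ⟨a, ha1, ha2⟩ := Nat.chineseRemainder hWE 0 a₀
  refine ⟨W * E, a, ?_, ?_⟩
  · apply Nat.mul_dvd_mul_left
    have h1 : E = ∏ p ∈ (Finset.univ.image (fun i => (q i : ℕ))), p ^ k := by
      rw [hE, Finset.prod_image]
      intro x _ y _ hxy
      exact q.injective (Subtype.ext hxy)
    rw [h1]
    apply Finset.prod_dvd_prod_of_subset
    intro p hp
    obtain ⟨i, -, rfl⟩ := Finset.mem_image.1 hp
    exact (q i).2
  · intro n hn i hi1 hi2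
    by_cases hiU : i ∈ U
    · refine ⟨(q ⟨i, hiU⟩ : ℕ), hq _, ?_⟩
      have h1 : n ≡ a₀ [MOD s ⟨i, hiU⟩] := by
        have h2 : n ≡ a [MOD E] := hn.of_dvd (Dvd.intro_left _ rfl)
        have h3 : n ≡ a₀ [MOD E] := h2.trans ha2
        exact h3.of_dvd (Finset.dvd_prod_of_mem s (Finset.mem_univ _))
      have h4 : n ≡ s ⟨i, hiU⟩ * i - i [MOD s ⟨i, hiU⟩] := h1.trans (ha₀ _ (Finset.mem_univ _))
      have h5 : n + i ≡ s ⟨i, hiU⟩ * i [MOD s ⟨i, hiU⟩] := by
        have h6 := h4.add_right i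
        have h7 : i ≤ s ⟨i, hiU⟩ * i := Nat.le_mul_of_pos_left _ (pow_pos (hq _).pos k)
        rwa [Nat.sub_add_cancel h7] at h6
      exact Nat.modEq_zero_iff_dvd.1 (h5.trans (Nat.modEq_zero_iff_dvd.2 (Dvd.intro _ rfl)))
    · have h1 : ∃ p ∈ P₀, p ^ k ∣ i := by
        by_contra hcon
        push Not at hcon
        exact hiU (by rw [hU, mem_filter, mem_Icc]; exact ⟨⟨hi1, hi2⟩, hcon⟩)
      obtain ⟨p, hp, hpi⟩ := h1
      refine ⟨p, hP₀ p hp, ?_⟩
      have h2 : n ≡ a [MOD W] := hn.of_dvd (Dvd.intro _ rfl)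
      have h3 : W ∣ n := Nat.modEq_zero_iff_dvd.1 (h2.trans ha1)
      exact ((Finset.dvd_prod_of_mem (fun p => p ^ k) hp).trans h3).add hpi

end Pool.Agent.helper391_SF
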