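import Mathlib
import Pool.Agent.helper391_SF.Main

set_option autoImplicit false

/-! The main theorem on `k`-free integers and primes. -/

namespace Pool.Agent.helper391_SF

open Finset Filter
open Pool.Agent.helper391_DG Pool.Agent.helper391_PT Pool.Agent.helper391_OM

theorem main (k : ℕ) (hk : 2 ≤ k) (θ c₁ : ℝ) (hθ : θ ≤ 1) (hc0 : 0 < c₁)
    (hc₁ : c₁ < θ * (riemannZeta k).re / k) :
    ∃ κ : ℝ, 0 < κ ∧ ∃ M₀ : ℕ, ∀ M : ℕ, M₀ ≤ M → ∃ n : ℕ, M < n ∧ (n : ℝ) ≤ M + (M : ℝ) ^ θ ∧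
      (∀ i : ℕ, 1 ≤ i → (i : ℝ) ≤ c₁ * Real.log M / Real.log (Real.log M) →
        ∃ p : ℕ, p.Prime ∧ p ^ k ∣ n + i) ∧
      ∀ p : ℕ, p.Prime → κ * F (Real.log M) < |(p : ℝ) - n| := by
  classical
  obtain ⟨hZ1, hlim⟩ := zeta_lim k hk
  set Z := (riemannZeta k).re with hZ
  have hk0 : (0 : ℝ) < k := by exact_mod_cast (by omega : 0 < k)
  have hk2 : (2 : ℝ) ≤ k := by exact_mod_cast hk
  have hZ0 : 0 < Z := by linarith
  have hθ0 : 0 < θ := by
    by_contra hcon
    push Not at hcon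
    have h1 : θ * Z / k ≤ 0 := div_nonpos_of_nonpos_of_nonneg
      (mul_nonpos_of_nonpos_of_nonneg hcon hZ0.le) hk0.le
    linarith
  set β₀ : ℝ := c₁ * k / Z with hβ₀
  have hβ₀0 : 0 < β₀ := by positivity
  have hβ₀θ : β₀ < θ := by
    rw [hβ₀, div_lt_iff₀ hZ0]
    rwa [lt_div_iff₀ hk0] at hc₁
  set γ : ℝ := θ - β₀ with hγ
  have hγ0 : 0 < γ := by linarith
  have hγθ : γ ≤ θ := by linarith
  set ε : ℝ := γ / (4 * k * c₁) with hε
  have hε0 : 0 < ε := by positivity
  obtain ⟨n₀, hn₀⟩ := (hlim.eventually (gt_mem_nhds (show 1 / Z < 1 / Z + ε by linarith))).exists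
  set P₀ := Nat.primesBelow n₀ with hP₀
  have hP₀p : ∀ p ∈ P₀, p.Prime := fun p hp => Nat.prime_of_mem_primesBelow hp
  have hP₀n : ∀ p ∈ P₀, p < n₀ := fun p hp => Nat.lt_of_mem_primesBelow hp
  set W : ℕ := ∏ p ∈ P₀, p ^ k with hW
  have hW0 : 0 < W := Finset.prod_pos (fun p hp => pow_pos (hP₀p p hp).pos k)
  have hWR : (1 : ℝ) ≤ W := by exact_mod_cast hW0
  set α : ℝ := (θ - γ / 4) / k with hα
  set β : ℝ := (θ - γ / 2) / k with hβ
  have hβ0 : 0 < β := by
    rw [hβ]; apply div_pos _ hk0; linarith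
  have hβα : β < α := by
    rw [hβ, hα]; apply div_lt_div_of_pos_right _ hk0; linarith
  have hα0 : 0 < α := by linarith
  have hα1 : α ≤ 1 := by
    rw [hα, div_le_one hk0]; linarith
  set δ' : ℝ := γ / (8 * θ) with hδ'
  have hδ'0 : 0 < δ' := by positivity
  have hδ'1 : δ' < 1 := by
    rw [hδ', div_lt_one (by positivity)]; linarith
  obtain ⟨c, hc, x₀, hbb⟩ := Pool.Agent.Results.MP_3bc45c_nt.RecordGapsAtPrescribedPlaces.result
    δ' 4 hδ'0 hδ'1 (by norm_num)
  obtain ⟨R, hR⟩ := F_scale θ hθ0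
  obtain ⟨Y₀, hY₀⟩ := exists_d
  have hcast : Tendsto (fun M : ℕ => (M : ℝ)) atTop atTop := tendsto_natCast_atTop_atTop
  have hlogM : Tendsto (fun M : ℕ => Real.log (M : ℝ)) atTop atTop :=
    Real.tendsto_log_atTop.comp hcast
  have hxM : Tendsto (fun M : ℕ => (M : ℝ) ^ θ) atTop atTop := (tendsto_rpow_atTop hθ0).comp hcast
  -- conditions on `L = log M`
  have hLcond : ∀ᶠ L : ℝ in atTop,
      (β * L / Real.log L ≤ (α * L - Real.log (8 * (α * L))) / Real.log (8 * (α * L)) ∧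
        (W : ℝ) ≤ γ / (4 * k) * (L / Real.log L)) ∧
      (R ≤ L ∧ Real.log W ≤ γ / 8 * L) ∧
      (Y₀ ≤ α * L ∧ (n₀ : ℝ) + 2 ≤ α * L) ∧
      (Real.sqrt L ≤ α * L / 2 ∧ 1 ≤ Real.log (Real.log L) ∧ 2 ≤ Real.log L) ∧
      2 ≤ Real.log (θ * L) := by
    have hlin : ∀ c' : ℝ, 0 < c' → Tendsto (fun L : ℝ => c' * L) atTop atTop :=
      fun c' hc' => tendsto_id.const_mul_atTop hc'
    have hLl : ∀ᶠ L : ℝ in atTop, (W : ℝ) ≤ γ / (4 * k) * (L / Real.log L) := by
      have h1 := Real.isLittleO_log_id_atTop.def (show (0 : ℝ) < γ / (4 * k * W) by positivity)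
      filter_upwards [h1, Real.tendsto_log_atTop.eventually_ge_atTop 1, eventually_ge_atTop 1]
        with L b1 b2 b3
      rw [Real.norm_eq_abs, abs_of_nonneg (by linarith), id, Real.norm_eq_abs,
        abs_of_nonneg (by linarith)] at b1
      rw [mul_div_assoc', le_div_iff₀ (by linarith)]
      have h2 : W * Real.log L ≤ W * (γ / (4 * k * W) * L) :=
        mul_le_mul_of_nonneg_left b1 (by linarith)
      have h3 : (W : ℝ) * (γ / (4 * k * W) * L) = γ / (4 * k) * L := by field_simp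
      linarith
    have hsq : ∀ᶠ L : ℝ in atTop, Real.sqrt L ≤ α * L / 2 := by
      filter_upwards [eventually_ge_atTop (4 / α ^ 2), eventually_gt_atTop 0] with L b1 b2
      rw [Real.sqrt_le_left (by positivity)]
      rw [div_le_iff₀ (by positivity)] at b1
      have : (α * L / 2) ^ 2 = (L * α ^ 2) * L / 4 := by ring
      rw [this]
      have h4 : 4 * L ≤ (L * α ^ 2) * L := mul_le_mul_of_nonneg_right b1 b2.le
      linarith
    exact ((size α β hβ0 hβα hα1).and hLl).and (((eventually_ge_atTop R).and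
      ((hlin (γ / 8) (by positivity)).eventually_ge_atTop _)).and
        ((((hlin α hα0).eventually_ge_atTop Y₀).and ((hlin α hα0).eventually_ge_atTop _)).and
          ((hsq.and (((Real.tendsto_log_atTop.comp Real.tendsto_log_atTop).eventually_ge_atTop
            1).and (Real.tendsto_log_atTop.eventually_ge_atTop 2))).and
              ((Real.tendsto_log_atTop.comp (hlin θ hθ0)).eventually_ge_atTop 2))))
  obtain ⟨M₀, hM₀⟩ := eventually_atTop.1 (((((hxM.eventually_ge_atTop x₀).and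
    (hxM.eventually (thr_large (n₀ : ℝ)))).and (hlogM.eventually hLcond))).and
      (eventually_ge_atTop 2))
  refine ⟨c * (Real.exp (-(2 * (n₀ + 2))) * (θ / 8)), by positivity, M₀, fun M hM => ?_⟩
  obtain ⟨⟨⟨b1, b2⟩, ⟨d1, d2⟩, ⟨d3, d4⟩, ⟨d5, d6⟩, ⟨d7, d8, d9⟩, d10⟩, b5⟩ := hM₀ M hM
  have hM2 : (2 : ℝ) ≤ M := by exact_mod_cast b5
  have hM0 : (0 : ℝ) < M := by linarith
  set x : ℝ := (M : ℝ) ^ θ with hx
  set L := Real.log (M : ℝ) with hL
  set l := Real.log L with hl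
  have hL0 : 0 < L := by
    by_contra hcon
    push Not at hcon
    have : 0 < α * L := by
      have : (0 : ℝ) ≤ n₀ := Nat.cast_nonneg _
      linarith
    nlinarith
  have hlx : Real.log x = θ * L := by rw [hx, Real.log_rpow hM0]
  set Y : ℝ := α * L with hY
  have hY2 : 2 ≤ Y := by
    have : (0 : ℝ) ≤ n₀ := Nat.cast_nonneg _
    linarith
  obtain ⟨d₀, e1, e2, e3, e4⟩ := hY₀ Y d5
  have hd₀ : d₀ ≠ 0 := by omega
  set K := ⌊Y⌋₊ with hK
  have hKY : (K : ℝ) ≤ Y := Nat.floor_le (by linarith)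
  have hYK : Y < K + 1 := Nat.lt_floor_add_one Y
  have hK2 : Y / 2 ≤ K := by linarith
  have hKn : n₀ + 1 ≤ K := by
    have : ((n₀ + 1 : ℕ) : ℝ) < K + 1 := by push_cast; linarith
    have : n₀ + 1 < K + 1 := by exact_mod_cast this
    omega
  have hK2' : 2 ≤ K := by
    have : (2 : ℝ) < K + 1 := by linarith
    have : 2 < K + 1 := by exact_mod_cast this
    omega
  have hKpos : (0 : ℝ) < K := by linarith
  have hlogK : l / 2 ≤ Real.log K := by
    have h1 : Real.log (Real.sqrt L) ≤ Real.log K := by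
      apply Real.log_le_log (Real.sqrt_pos.2 hL0)
      linarith
    rwa [Real.log_sqrt hL0.le] at h1
  have hlogK1 : 1 ≤ Real.log K := by linarith
  have hllx0 : 2 ≤ Real.log (Real.log x) := by rw [hlx]; exact d10
  have hllxl : Real.log (Real.log x) ≤ l := by
    rw [hlx]
    apply Real.log_le_log (by positivity)
    calc θ * L ≤ 1 * L := mul_le_mul_of_nonneg_right hθ hL0.le
      _ = L := one_mul L
  set P := d₀.primeFactors with hP
  have hPp : ∀ p ∈ P, p.Prime := fun p hp => Nat.prime_of_mem_primeFactors hp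
  have hfil : P.filter (fun p => K < p) = P := Finset.filter_true_of_mem (fun p hp => e3 p hp)
  have hsum : ∑ p ∈ P, 1 / (p : ℝ) ≤ 2 / Real.log K := by
    have h1 := large d₀ K hd₀ hK2'
    rw [← hP, hfil] at h1
    refine h1.trans ?_
    rw [div_le_div_iff₀ (by positivity) (by linarith)]
    have h2 : Real.log d₀ ≤ 2 * K := by linarith
    calc Real.log d₀ * Real.log K ≤ (2 * K) * Real.log K := by gcongr
      _ = 2 * (K * Real.log K) := by ring
  have hdis : ∀ p ∈ P, p ∉ P₀ := by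
    intro p hp hp'
    have h1 := e3 p hp
    have h2 := hP₀n p hp'
    omega
  -- the positions
  set h : ℕ := ⌊c₁ * L / l⌋₊ with hh
  have hl0 : 0 < l := by linarith
  have hhR : (h : ℝ) ≤ c₁ * L / l := Nat.floor_le (by positivity)
  have hcard : ((Icc 1 h).filter (fun i => ∀ p ∈ P₀, ¬ p ^ k ∣ i)).card ≤ P.card := by
    have h1 := count_h k P₀ hP₀p h
    have h2 : (∏ p ∈ P₀, (p : ℝ) ^ k) = W := by rw [hW]; push_cast; rfl
    rw [h2] at h1
    have h3 : (h : ℝ) * ∏ p ∈ P₀, (1 - 1 / (p : ℝ) ^ k) ≤ c₁ * L / l * (1 / Z + ε) := by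
      calc (h : ℝ) * ∏ p ∈ P₀, (1 - 1 / (p : ℝ) ^ k) ≤ h * (1 / Z + ε) :=
            mul_le_mul_of_nonneg_left hn₀.le (Nat.cast_nonneg _)
        _ ≤ _ := mul_le_mul_of_nonneg_right hhR (by positivity)
    have h4 : c₁ * L / l * (1 / Z + ε) = (β₀ / k + γ / (4 * k)) * (L / l) := by
      rw [hβ₀, hε]; field_simp
    have h5 : β * L / l = (β₀ / k + γ / (4 * k)) * (L / l) + γ / (4 * k) * (L / l) := by
      have h51 : β = β₀ / k + γ / (4 * k) + γ / (4 * k) := by
        have h52 : β₀ = θ - γ := by rw [hγ]; ring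
        rw [hβ, h52]; field_simp; ring
      rw [h51]; ring
    set w := Real.log (8 * Y) with hw
    have hw0 : 0 < w := Real.log_pos (by linarith)
    have h6 : (Y - w) / w ≤ P.card := by
      rw [div_le_iff₀ hw0]; exact e4
    have h7 : (((Icc 1 h).filter (fun i => ∀ p ∈ P₀, ¬ p ^ k ∣ i)).card : ℝ) ≤ P.card := by
      linarith
    exact_mod_cast h7
  obtain ⟨d, a, hd, hda⟩ := crt k h P₀ P hP₀p hPp hdis hcard
  have hprod0 : 0 < (∏ p ∈ P, p ^ k) := Finset.prod_pos (fun p hp => pow_pos (hPp p hp).pos k)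
  have hd0 : d ≠ 0 := by
    rintro rfl
    rw [zero_dvd_iff] at hd
    have : 0 < W * ∏ p ∈ P, p ^ k := Nat.mul_pos hW0 hprod0
    exact this.ne' hd
  have hd1 : 1 ≤ d := Nat.one_le_iff_ne_zero.2 hd0
  have hdR : (0 : ℝ) < d := by exact_mod_cast hd1
  have hPd₀ : ∏ p ∈ P, p ≤ d₀ := Nat.le_of_dvd (by omega) (Nat.prod_primeFactors_dvd d₀)
  have hdle : d ≤ W * d₀ ^ k := by
    refine (Nat.le_of_dvd (Nat.mul_pos hW0 hprod0) hd).trans ?_
    apply Nat.mul_le_mul_left
    rw [Finset.prod_pow]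
    exact Nat.pow_le_pow_left hPd₀ k
  have hlogd : Real.log d ≤ (θ - γ / 8) * L := by
    have h1 : Real.log d ≤ Real.log (W * (d₀ : ℝ) ^ k) := by
      apply Real.log_le_log hdR
      exact_mod_cast hdle
    have hd₀R : (0 : ℝ) < d₀ := by exact_mod_cast e1
    rw [Real.log_mul (by linarith) (by positivity), Real.log_pow] at h1
    have h2 : k * Real.log d₀ ≤ k * Y := mul_le_mul_of_nonneg_left e2 hk0.le
    have h3 : k * Y = (θ - γ / 4) * L := by rw [hY, hα]; field_simp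
    have h4 : (θ - γ / 4) * L = θ * L - γ / 4 * L := by ring
    have h5 : (θ - γ / 8) * L = θ * L - γ / 8 * L := by ring
    linarith
  have hsize : (d : ℝ) ≤ x ^ (1 - δ') := by
    rw [← Real.log_le_log_iff hdR (by positivity), Real.log_rpow (by positivity), hlx]
    refine hlogd.trans (le_of_eq ?_)
    rw [hδ']
    field_simp
  have hpf : ∀ p ∈ d.primeFactors, p ∈ P₀ ∨ p ∈ P := by
    intro p hp
    obtain ⟨hp1, hp2, -⟩ := Nat.mem_primeFactors.1 hp
    rcases hp1.dvd_mul.1 (hp2.trans hd) with h1 | h1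
    · left
      obtain ⟨q, hq, hpq⟩ := (Prime.dvd_finsetProd_iff hp1.prime _).1 h1
      have h2 := (Nat.prime_dvd_prime_iff_eq hp1 (hP₀p q hq)).1 (hp1.dvd_of_dvd_pow hpq)
      rw [h2]; exact hq
    · right
      obtain ⟨q, hq, hpq⟩ := (Prime.dvd_finsetProd_iff hp1.prime _).1 h1
      have h2 := (Nat.prime_dvd_prime_iff_eq hp1 (hPp q hq)).1 (hp1.dvd_of_dvd_pow hpq)
      rw [h2]; exact hq
  have hcond : (∑ p ∈ d.primeFactors with
      Real.exp (Real.log (Real.log x) * Real.log (Real.log (Real.log (Real.log x))) /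
        (20 * Real.log (Real.log (Real.log x)))) < ((p : ℕ) : ℝ), 1 / ((p : ℕ) : ℝ)) ≤
      4 / Real.log (Real.log x) := by
    refine le_trans (Finset.sum_le_sum_of_subset_of_nonneg (t := P) ?_
      (fun _ _ _ => by positivity)) (hsum.trans ?_)
    · intro p hp
      rw [Finset.mem_filter] at hp
      rcases hpf p hp.1 with h1 | h1
      · have h2 : (p : ℝ) < n₀ := by exact_mod_cast hP₀n p h1
        linarith [hp.2]
      · exact h1
    · rw [div_le_div_iff₀ (by linarith) (by linarith)]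
      linarith
  have htot : Real.exp (-(2 * (n₀ + 2))) ≤ (Nat.totient d : ℝ) / d := by
    refine le_trans ?_ (tot_exp d hd0)
    apply Real.exp_le_exp.2
    have h1 : ∑ p ∈ d.primeFactors, 1 / (p : ℝ) ≤ ∑ p ∈ P₀ ∪ P, 1 / (p : ℝ) := by
      apply Finset.sum_le_sum_of_subset_of_nonneg
      · intro p hp
        rw [Finset.mem_union]; exact hpf p hp
      · intro p _ _; positivity
    have h2 := sum_union_le P₀ P
    have h3 : ∑ p ∈ P₀, 1 / (p : ℝ) ≤ n₀ := by
      calc ∑ p ∈ P₀, 1 / (p : ℝ) ≤ ∑ p ∈ P₀, (1 : ℝ) := by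
            apply Finset.sum_le_sum
            intro p hp
            have h4 : (1 : ℝ) ≤ p := by exact_mod_cast (hP₀p p hp).one_lt.le
            rw [div_le_one (by linarith)]; exact h4
        _ = P₀.card := by rw [Finset.sum_const, nsmul_eq_mul, mul_one]
        _ ≤ n₀ := by
            have h5 : P₀ ⊆ range n₀ := fun p hp => Finset.mem_range.2 (hP₀n p hp)
            have h6 := Finset.card_le_card h5
            rw [Finset.card_range] at h6
            exact_mod_cast h6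
    have h4 : 2 / Real.log K ≤ 2 := by
      rw [div_le_iff₀ (by linarith)]; linarith
    linarith
  obtain ⟨n, hn1, hn2, hn3, hn4⟩ := hbb x b1 d hd1 hsize hcond a M
  refine ⟨n, hn2, hn3, ?_, ?_⟩
  · intro i hi1 hi2
    exact hda n hn1 i hi1 (Nat.le_floor hi2)
  · intro p hp
    refine lt_of_le_of_lt ?_ (hn4 p hp)
    obtain ⟨hF1, hF2⟩ := hR L d3 (Real.log x) hlx.ge (by
      rw [hlx]
      calc θ * L ≤ 1 * L := mul_le_mul_of_nonneg_right hθ hL0.le
        _ = L := one_mul L)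
    have h3 : F (Real.log x) = Real.log x * (Real.log (Real.log x)) ^ 2 *
          Real.log (Real.log (Real.log (Real.log x))) / (Real.log (Real.log (Real.log x))) ^ 2 := rfl
    rw [← h3]
    calc c * (Real.exp (-(2 * (n₀ + 2))) * (θ / 8)) * F L
        = c * (Real.exp (-(2 * (n₀ + 2))) * (θ / 8 * F L)) := by ring
      _ ≤ c * ((Nat.totient d : ℝ) / d * F (Real.log x)) := by
          gcongr

end Pool.Agent.helper391_SF
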